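import Mathlib
import Pool.Agent.Helper1.Res.LA4

/-!
# Project RES (MP_d365ae_co): caps for labels

`M` is a maximum matching avoiding `x`, `y`; `N F x y` is the set `E` of the route.

* `cap_one`: `|N F p b \ VS M| ≤ s + 1` if `b` is outside `VS M` or in the block of `p`.
* `cap_one_E`: for `p` in `E`: without `x`, `y` at most `s` points.
* `cap_two_E`: for `p`, `q` in `E` (any two points): at most `s` points without `x`, `y`.
* `cap_two_E1`: for `p` in `E`: at most `s + 1` points without `x`, `y`.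
* `cover_G`, `cover_G_E`: covers of the edges with the only point `p` in `VS M`.
* `card_G`, `card_G_E`: their number.
-/

namespace Helper21.Res

open Finset Res12 Helper1.Res

set_option linter.unusedSectionVars false

variable {V : Type} [Fintype V] [DecidableEq V]

/-- every member of `E` lies in `S` or is disjoint from `S` -/
def Cl (E : Finset (Finset V)) (S : Finset V) : Prop := ∀ e ∈ E, e ⊆ S ∨ Disjoint e S

theorem Cl.compl {E : Finset (Finset V)} {S : Finset V} (h : Cl E S) : Cl E Sᶜ := by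
  intro e he
  rcases h e he with h1 | h1
  · right
    rw [Finset.disjoint_left]
    intro v hv hv'
    exact (mem_compl.1 hv') (h1 hv)
  · left
    intro v hv
    rw [mem_compl]
    exact Finset.disjoint_left.1 h1 hv

open Classical in
/-- the smallest closed set containing `p` -/
noncomputable def att (E : Finset (Finset V)) (p : V) : Finset V :=
  univ.filter (fun z => ∀ S : Finset V, Cl E S → p ∈ S → z ∈ S)

theorem mem_att {E : Finset (Finset V)} {p z : V} :
    z ∈ att E p ↔ ∀ S : Finset V, Cl E S → p ∈ S → z ∈ S := by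
  simp [att]

theorem self_att (E : Finset (Finset V)) (p : V) : p ∈ att E p :=
  mem_att.2 fun _ _ h => h

theorem att_sub {E : Finset (Finset V)} {p : V} {S : Finset V} (h : Cl E S) (hp : p ∈ S) :
    att E p ⊆ S := fun _ hz => mem_att.1 hz S h hp

theorem cl_att (E : Finset (Finset V)) (p : V) : Cl E (att E p) := by
  intro e he
  by_cases hd : Disjoint e (att E p)
  · exact Or.inr hd
  · left
    rw [Finset.not_disjoint_iff] at hd
    obtain ⟨z, hz, hz'⟩ := hd
    intro v hv
    rw [mem_att]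
    intro S hS hp
    rcases hS e he with h1 | h1
    · exact h1 hv
    · exact absurd (mem_att.1 hz' S hS hp) (Finset.disjoint_left.1 h1 hz)

theorem att_disj {E : Finset (Finset V)} {p q : V} (h : q ∉ att E p) :
    Disjoint (att E p) (att E q) := by
  have h1 := att_sub (cl_att E p).compl (mem_compl.2 h)
  rw [Finset.disjoint_left]
  intro v hv hv'
  exact (mem_compl.1 (h1 hv')) hv

theorem card_att {E : Finset (Finset V)} (h3 : ∀ e ∈ E, e.card = 3) (p : V) :
    (att E p).card ≤ 1 + 2 * (E.filter (fun e => e ⊆ att E p)).card := by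
  classical
  let A : Finset (Finset V) := (att E p).powerset.filter (fun S : Finset V =>
    p ∈ S ∧ S.card ≤ 1 + 2 * (E.filter (fun e => e ⊆ S)).card)
  have hA : A.Nonempty := ⟨{p}, by simp [A, self_att]⟩
  obtain ⟨S, hS, hmax⟩ := Finset.exists_max_image A Finset.card hA
  simp only [A, mem_filter, mem_powerset] at hS
  have hcl : Cl E S := by
    intro e he
    by_contra hcon
    push Not at hcon
    obtain ⟨h1, h2⟩ := hcon
    have h2' := h2
    rw [Finset.not_disjoint_iff] at h2'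
    obtain ⟨z, hz, hz'⟩ := h2'
    have heat : e ⊆ att E p := by
      rcases cl_att E p e he with h4 | h4
      · exact h4
      · exact absurd (hS.1 hz') (Finset.disjoint_left.1 h4 hz)
    have hS' : S ∪ e ∈ A := by
      simp only [A, mem_filter, mem_powerset]
      refine ⟨union_subset hS.1 heat, mem_union_left _ hS.2.1, ?_⟩
      have hc1 : (S ∪ e).card ≤ S.card + 2 := by
        have := Finset.card_union_add_card_inter S e
        have h4 : 1 ≤ (S ∩ e).card := by
          rw [Nat.one_le_iff_ne_zero, ← Nat.pos_iff_ne_zero, Finset.card_pos]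
          exact ⟨z, mem_inter.2 ⟨hz', hz⟩⟩
        have := h3 e he
        omega
      have hc2 : (E.filter (fun f => f ⊆ S)).card + 1 ≤
          (E.filter (fun f => f ⊆ S ∪ e)).card := by
        have hsub : insert e (E.filter (fun f => f ⊆ S)) ⊆ E.filter (fun f => f ⊆ S ∪ e) := by
          intro f hf
          rw [mem_insert] at hf
          rcases hf with rfl | hf
          · exact mem_filter.2 ⟨he, subset_union_right⟩
          · rw [mem_filter] at hf ⊢
            exact ⟨hf.1, hf.2.trans subset_union_left⟩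
        have hni : e ∉ E.filter (fun f => f ⊆ S) := by
          intro hf
          exact h1 (mem_filter.1 hf).2
        rw [← Finset.card_insert_of_notMem hni]
        exact card_le_card hsub
      have := hS.2.2
      omega
    have h5 := hmax _ hS'
    have h6 : S.card < (S ∪ e).card := by
      apply Finset.card_lt_card
      rw [Finset.ssubset_iff_of_subset subset_union_left]
      rw [Finset.not_subset] at h1
      obtain ⟨v, hv1, hv2⟩ := h1
      exact ⟨v, mem_union_right _ hv1, hv2⟩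
    omega
  have h7 : att E p = S := subset_antisymm (att_sub hcl hS.2.1) hS.1
  rw [h7]
  exact hS.2.2

variable {F M : Finset (Finset V)} {s : ℕ}

/-- the switched matching: `M` outside `S`, `Q` inside `S` -/
def sw (M Q : Finset (Finset V)) (S : Finset V) : Finset (Finset V) :=
  M.filter (fun e => ¬ e ⊆ S) ∪ Q.filter (fun e => e ⊆ S)

theorem sw_matching {P Q : Finset (Finset V)} {S : Finset V} (hcl : Cl (P ∪ Q) S)
    {A B : Finset (Finset V)} (hA : A ⊆ P ∪ Q) (hmA : IsMatching A)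
    (hmB : IsMatching B) : IsMatching (sw A B S) := by
  intro e he f hf hef
  simp only [sw, mem_union, mem_filter] at he hf
  rcases he with he | he <;> rcases hf with hf | hf
  · exact hmA e he.1 f hf.1 hef
  · exact ((hcl e (hA he.1)).resolve_left he.2).mono_right hf.2
  · exact (((hcl f (hA hf.1)).resolve_left hf.2).mono_right he.2).symm
  · exact hmB e he.1 f hf.1 hef

theorem card_sw (A B : Finset (Finset V)) (S : Finset V) : (sw A B S).card =
    (A.filter (fun e => ¬ e ⊆ S)).card + (B.filter (fun e => e ⊆ S)).card := by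
  unfold sw
  rw [card_union_of_disjoint]
  rw [Finset.disjoint_left]
  intro e he hf
  exact (mem_filter.1 he).2 (mem_filter.1 hf).2

theorem sw_sub {A B : Finset (Finset V)} {S : Finset V} (hA : A ⊆ F) (hB : B ⊆ F) :
    sw A B S ⊆ F := by
  intro e he
  simp only [sw, mem_union, mem_filter] at he
  rcases he with he | he
  · exact hA he.1
  · exact hB he.1

/-- the sizes inside a closed set agree and the switched matching is maximum -/
theorem sw_max (hM : MM F s M) {Q : Finset (Finset V)} (hQ : MM F s Q) {S : Finset V}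
    (hcl : Cl (M ∪ Q) S) : (Q.filter (fun e => e ⊆ S)).card = (M.filter (fun e => e ⊆ S)).card ∧
      MM F s (sw M Q S) := by
  have hPfil := Finset.card_filter_add_card_filter_not (s := M) (fun e => e ⊆ S)
  have hQfil := Finset.card_filter_add_card_filter_not (s := Q) (fun e => e ⊆ S)
  have h1 := hM.hyp.le (sw M Q S) (sw_sub hM.sub hQ.sub)
    (sw_matching hcl subset_union_left hM.mat hQ.mat)
  have h2 := hM.hyp.le (sw Q M S) (sw_sub hQ.sub hM.sub)
    (sw_matching hcl subset_union_right hQ.mat hM.mat)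
  rw [card_sw] at h1 h2
  have hc1 := hM.card
  have hc2 := hQ.card
  have h3 : (Q.filter (fun e => e ⊆ S)).card = (M.filter (fun e => e ⊆ S)).card := by omega
  refine ⟨h3, ⟨hM.hyp, sw_sub hM.sub hQ.sub, sw_matching hcl subset_union_left hM.mat
    hQ.mat, ?_⟩⟩
  rw [card_sw]
  omega

theorem mem_VS_sw {Q : Finset (Finset V)} {S : Finset V} (hcl : Cl (M ∪ Q) S) {v : V}
    (hv : v ∈ VS (sw M Q S)) : (v ∈ VS M ∧ v ∉ S) ∨ (v ∈ VS Q ∧ v ∈ S) := by
  obtain ⟨e, he, hve⟩ := mem_VS.1 hv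
  simp only [sw, mem_union, mem_filter] at he
  rcases he with he | he
  · left
    refine ⟨mem_VS.2 ⟨e, he.1, hve⟩, ?_⟩
    exact Finset.disjoint_left.1 ((hcl e (mem_union_left _ he.1)).resolve_left he.2) hve
  · right
    exact ⟨mem_VS.2 ⟨e, he.1, hve⟩, he.2 hve⟩

/-- number of new points in the closed set of one point -/
theorem card_new (hM : MM F s M) {Q : Finset (Finset V)} (hQ : MM F s Q) (p : V) :
    (att (M ∪ Q) p \ VS M).card ≤ 1 + (M.filter (fun e => e ⊆ att (M ∪ Q) p)).card := by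
  have h3M : ∀ e ∈ M, e.card = 3 := fun e he => hM.hyp.three e (hM.sub he)
  have h3Q : ∀ e ∈ Q, e.card = 3 := fun e he => hM.hyp.three e (hQ.sub he)
  have h1 := card_att (E := M ∪ Q) (by
    intro e he
    rw [mem_union] at he
    rcases he with he | he
    · exact h3M e he
    · exact h3Q e he) p
  obtain ⟨h2, -⟩ := sw_max hM hQ (cl_att (M ∪ Q) p)
  set S := att (M ∪ Q) p with hS
  have hunion : ((M ∪ Q).filter (fun e => e ⊆ S)).card ≤
      (M.filter (fun e => e ⊆ S)).card + (Q.filter (fun e => e ⊆ S)).card := by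
    rw [filter_union]
    exact card_union_le _ _
  have hcV : (VS (M.filter (fun e => e ⊆ S))).card = 3 * (M.filter (fun e => e ⊆ S)).card :=
    card_VS (hM.mat.mono (filter_subset _ _)) (fun e he => h3M e (mem_filter.1 he).1)
  have hVsub : VS (M.filter (fun e => e ⊆ S)) ⊆ S := by
    intro v hv
    rw [mem_VS] at hv
    obtain ⟨e, he, hve⟩ := hv
    exact (mem_filter.1 he).2 hve
  have hsub : S \ VS M ⊆ S \ VS (M.filter (fun e => e ⊆ S)) := by
    intro v hv
    rw [mem_sdiff] at hv ⊢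
    refine ⟨hv.1, fun h => hv.2 ?_⟩
    obtain ⟨e, he, hve⟩ := mem_VS.1 h
    exact mem_VS.2 ⟨e, (mem_filter.1 he).1, hve⟩
  have h4 := card_le_card hsub
  rw [card_sdiff_of_subset hVsub, hcV] at h4
  omega

theorem card_filter_le_s (hM : MM F s M) (S : Finset V) :
    (M.filter (fun e => e ⊆ S)).card ≤ s := by
  have h1 := card_le_card (filter_subset (fun e => e ⊆ S) M)
  rw [hM.card] at h1
  exact h1

/-- the matching switched at `p` avoids `p` -/
theorem sw_avoid {Q : Finset (Finset V)} {p : V} (hp : p ∉ VS Q) {S : Finset V}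
    (hcl : Cl (M ∪ Q) S) (hpS : p ∈ S) : p ∉ VS (sw M Q S) := by
  intro h
  rcases mem_VS_sw hcl h with h1 | h1
  · exact h1.2 hpS
  · exact hp h1.1

/-- a point outside `VS M` which `Q` avoids is avoided by the switched matching -/
theorem sw_avoid' {Q : Finset (Finset V)} {b : V} (hb : b ∉ VS M) (hb' : b ∉ VS Q)
    {S : Finset V} (hcl : Cl (M ∪ Q) S) : b ∉ VS (sw M Q S) := by
  intro h
  rcases mem_VS_sw hcl h with h1 | h1
  · exact hb h1.1
  · exact hb' h1.1

/-- if `p` is in `E` then the switch at `p` uses `x` or `y` -/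
theorem uses_xy (hM : MM F s M) {x y : V} (hx : x ∉ VS M) (hy : y ∉ VS M)
    {Q : Finset (Finset V)} (hQ : MM F s Q) {p : V} (hp : p ∈ N F x y) (hpQ : p ∉ VS Q)
    {S : Finset V} (hcl : Cl (M ∪ Q) S) (hpS : p ∈ S) : x ∈ S ∨ y ∈ S := by
  by_contra hcon
  push Not at hcon
  obtain ⟨-, h2⟩ := sw_max hM hQ hcl
  have hav : ∀ z : V, z ∉ VS M → z ∉ S → ∀ e ∈ sw M Q S, z ∉ e := by
    intro z hz hzS e he hze
    rcases mem_VS_sw hcl (mem_VS.2 ⟨e, he, hze⟩) with h1 | h1
    · exact hz h1.1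
    · exact hzS h1.2
  have h3 := h2.hyp.N_subset h2.sub h2.mat h2.card (a := x) (b := y)
    (fun e he => ⟨hav x hx hcon.1 e he, hav y hy hcon.2 e he⟩) hp
  exact sw_avoid hpQ hcl hpS h3

theorem exists_Q (hM : MM F s M) (p b : V) : ∃ Q, MM F s Q ∧ p ∉ VS Q ∧ b ∉ VS Q := by
  obtain ⟨Q, hQ, hmQ, hcQ, hav⟩ := hM.hyp.avoid p b
  refine ⟨Q, ⟨hM.hyp, hQ, hmQ, hcQ⟩, fun h => ?_, fun h => ?_⟩
  · obtain ⟨e, he, hpe⟩ := mem_VS.1 h
    exact (hav e he).1 hpe
  · obtain ⟨e, he, hpe⟩ := mem_VS.1 h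
    exact (hav e he).2 hpe

/-- the new neighbours of a pair lie in a closed set containing the points of the pair -/
theorem N_sub_closed (hM : MM F s M) {Q : Finset (Finset V)} (hQ : MM F s Q) {p b : V}
    (hpQ : p ∉ VS Q) (hbQ : b ∉ VS Q) {S : Finset V} (hcl : Cl (M ∪ Q) S) (hpS : p ∈ S)
    (hb : b ∉ VS M ∨ b ∈ S) : N F p b \ VS M ⊆ S \ VS M := by
  obtain ⟨-, h2⟩ := sw_max hM hQ hcl
  have hb' : b ∉ VS (sw M Q S) := by
    rcases hb with hb | hb
    · exact sw_avoid' hb hbQ hcl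
    · exact sw_avoid hbQ hcl hb
  have hp' : p ∉ VS (sw M Q S) := sw_avoid hpQ hcl hpS
  intro z hz
  rw [mem_sdiff] at hz ⊢
  refine ⟨?_, hz.2⟩
  have h3 := h2.hyp.N_subset h2.sub h2.mat h2.card (a := p) (b := b)
    (fun e he => ⟨fun h => hp' (mem_VS.2 ⟨e, he, h⟩), fun h => hb' (mem_VS.2 ⟨e, he, h⟩)⟩) hz.1
  rcases mem_VS_sw hcl h3 with h4 | h4
  · exact absurd h4.1 hz.2
  · exact h4.2

theorem block_sub {Q : Finset (Finset V)} {p : V} {e : Finset V} (he : e ∈ M) (hp : p ∈ e) :
    e ⊆ att (M ∪ Q) p := by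
  rcases cl_att (M ∪ Q) p e (mem_union_left _ he) with h | h
  · exact h
  · exact absurd (self_att _ p) (Finset.disjoint_left.1 h hp)

/-- **one component**: `b` outside `VS M` or in the block of `p` -/
theorem cap_one (hM : MM F s M) {p b : V} (hb : b ∉ VS M ∨ ∃ e ∈ M, p ∈ e ∧ b ∈ e) :
    (N F p b \ VS M).card ≤ s + 1 := by
  obtain ⟨Q, hQ, hp, hb'⟩ := exists_Q hM p b
  have h1 := N_sub_closed hM hQ hp hb' (cl_att (M ∪ Q) p) (self_att _ p) (by
    rcases hb with hb | ⟨e, he, hpe, hbe⟩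
    · exact Or.inl hb
    · exact Or.inr (block_sub he hpe hbe))
  have h2 := card_new hM hQ p
  have h3 := card_filter_le_s hM (att (M ∪ Q) p)
  have h4 := card_le_card h1
  omega

theorem card_sdiff_xy {A S : Finset V} {x y : V} {k : ℕ} (hA : A ⊆ S) (hS : S.card ≤ k + 1)
    (hxy : x ∈ S ∨ y ∈ S) : (A \ {x, y}).card ≤ k := by
  rcases hxy with h | h
  · have h1 : A \ {x, y} ⊆ S.erase x := by
      intro z hz
      simp only [mem_sdiff, mem_insert, mem_singleton, not_or] at hz
      exact mem_erase.2 ⟨hz.2.1, hA hz.1⟩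
    have h2 := card_le_card h1
    rw [card_erase_of_mem h] at h2
    omega
  · have h1 : A \ {x, y} ⊆ S.erase y := by
      intro z hz
      simp only [mem_sdiff, mem_insert, mem_singleton, not_or] at hz
      exact mem_erase.2 ⟨hz.2.2, hA hz.1⟩
    have h2 := card_le_card h1
    rw [card_erase_of_mem h] at h2
    omega

/-- the point `x` or `y` used is a new point -/
theorem xy_new {S : Finset V} {x y : V} (hx : x ∉ VS M) (hy : y ∉ VS M) (h : x ∈ S ∨ y ∈ S) :
    x ∈ S \ VS M ∨ y ∈ S \ VS M := by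
  rcases h with h | h
  · exact Or.inl (mem_sdiff.2 ⟨h, hx⟩)
  · exact Or.inr (mem_sdiff.2 ⟨h, hy⟩)

/-- **one component, `p` in `E`** -/
theorem cap_one_E (hM : MM F s M) {x y : V} (hx : x ∉ VS M) (hy : y ∉ VS M) {p b : V}
    (hp : p ∈ N F x y) (hb : b ∉ VS M ∨ ∃ e ∈ M, p ∈ e ∧ b ∈ e) :
    ((N F p b \ VS M) \ {x, y}).card ≤ s := by
  obtain ⟨Q, hQ, hpQ, hbQ⟩ := exists_Q hM p b
  have h1 := N_sub_closed hM hQ hpQ hbQ (cl_att (M ∪ Q) p) (self_att _ p) (by
    rcases hb with hb | ⟨e, he, hpe, hbe⟩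
    · exact Or.inl hb
    · exact Or.inr (block_sub he hpe hbe))
  have h2 := card_new hM hQ p
  have h3 := card_filter_le_s hM (att (M ∪ Q) p)
  exact card_sdiff_xy h1 (by omega)
    (xy_new hx hy (uses_xy hM hx hy hQ hp hpQ (cl_att _ p) (self_att _ p)))

theorem Cl.union {E : Finset (Finset V)} {S T : Finset V} (h : Cl E S) (h' : Cl E T) :
    Cl E (S ∪ T) := by
  intro e he
  rcases h e he with h1 | h1
  · exact Or.inl (h1.trans subset_union_left)
  · rcases h' e he with h2 | h2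
    · exact Or.inl (h2.trans subset_union_right)
    · right
      rw [disjoint_union_right]
      exact ⟨h1, h2⟩

/-- the structure of the new neighbours of an arbitrary pair: one or two components -/
theorem two_comp (hM : MM F s M) (p q : V) : ∃ Q, MM F s Q ∧ p ∉ VS Q ∧ q ∉ VS Q ∧
    ((N F p q \ VS M ⊆ att (M ∪ Q) p \ VS M ∧ (att (M ∪ Q) p \ VS M).card ≤ s + 1) ∨
      ∃ k k' : ℕ, k + k' ≤ s ∧ Disjoint (att (M ∪ Q) p) (att (M ∪ Q) q) ∧
        (att (M ∪ Q) p \ VS M).card ≤ k + 1 ∧ (att (M ∪ Q) q \ VS M).card ≤ k' + 1 ∧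
        N F p q \ VS M ⊆ (att (M ∪ Q) p \ VS M) ∪ (att (M ∪ Q) q \ VS M)) := by
  obtain ⟨Q, hQ, hpQ, hqQ⟩ := exists_Q hM p q
  refine ⟨Q, hQ, hpQ, hqQ, ?_⟩
  have c1 := card_new hM hQ p
  have c2 := card_new hM hQ q
  by_cases hq : q ∈ att (M ∪ Q) p
  · left
    refine ⟨N_sub_closed hM hQ hpQ hqQ (cl_att _ p) (self_att _ p) (Or.inr hq), ?_⟩
    have h3 := card_filter_le_s hM (att (M ∪ Q) p)
    omega
  · right
    have hd := att_disj hq
    refine ⟨(M.filter (fun e => e ⊆ att (M ∪ Q) p)).card,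
      (M.filter (fun e => e ⊆ att (M ∪ Q) q)).card, ?_, hd, by omega, by omega, ?_⟩
    · rw [← card_union_of_disjoint]
      · calc _ ≤ M.card := card_le_card (union_subset (filter_subset _ _) (filter_subset _ _))
          _ = s := hM.card
      · rw [Finset.disjoint_left]
        intro e he he'
        have h1 := (mem_filter.1 he)
        have h2 := (mem_filter.1 he')
        have hne : e.Nonempty := by
          rw [← card_pos, hM.hyp.three e (hM.sub h1.1)]
          norm_num
        obtain ⟨v, hv⟩ := hne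
        exact Finset.disjoint_left.1 hd (h1.2 hv) (h2.2 hv)
    · have h4 := N_sub_closed hM hQ hpQ hqQ ((cl_att _ p).union (cl_att _ q))
        (mem_union_left _ (self_att _ p)) (Or.inr (mem_union_right _ (self_att _ q)))
      rwa [union_sdiff_distrib] at h4

/-- **two points of `E`**: at most `s` new neighbours different from `x`, `y` -/
theorem cap_two_E (hM : MM F s M) {x y : V} (hx : x ∉ VS M) (hy : y ∉ VS M) {p q : V}
    (hp : p ∈ N F x y) (hq : q ∈ N F x y) : ((N F p q \ VS M) \ {x, y}).card ≤ s := by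
  obtain ⟨Q, hQ, hpQ, hqQ, h⟩ := two_comp hM p q
  have u1 := xy_new hx hy (uses_xy hM hx hy hQ hp hpQ (cl_att _ p) (self_att _ p))
  have u2 := xy_new hx hy (uses_xy hM hx hy hQ hq hqQ (cl_att _ q) (self_att _ q))
  rcases h with ⟨h1, h2⟩ | ⟨k, k', hk, -, h1, h2, h3⟩
  · exact card_sdiff_xy h1 h2 u1
  · set A := att (M ∪ Q) p \ VS M
    set B := att (M ∪ Q) q \ VS M
    have e1 : (A \ {x, y}).card ≤ k := card_sdiff_xy (subset_refl _) h1 u1
    have e2 : (B \ {x, y}).card ≤ k' := card_sdiff_xy (subset_refl _) h2 u2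
    calc ((N F p q \ VS M) \ {x, y}).card ≤ ((A \ {x, y}) ∪ (B \ {x, y})).card := by
          apply card_le_card
          rw [← union_sdiff_distrib]
          exact sdiff_subset_sdiff h3 (subset_refl _)
      _ ≤ (A \ {x, y}).card + (B \ {x, y}).card := card_union_le _ _
      _ ≤ s := by omega

/-- **one point of `E`**: at most `s + 1` new neighbours different from `x`, `y` -/
theorem cap_two_E1 (hM : MM F s M) {x y : V} (hx : x ∉ VS M) (hy : y ∉ VS M) {p q : V}
    (hp : p ∈ N F x y) : ((N F p q \ VS M) \ {x, y}).card ≤ s + 1 := by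
  obtain ⟨Q, hQ, hpQ, hqQ, h⟩ := two_comp hM p q
  have u1 := xy_new hx hy (uses_xy hM hx hy hQ hp hpQ (cl_att _ p) (self_att _ p))
  rcases h with ⟨h1, h2⟩ | ⟨k, k', hk, -, h1, h2, h3⟩
  · have := card_sdiff_xy h1 h2 u1
    omega
  · set A := att (M ∪ Q) p \ VS M
    set B := att (M ∪ Q) q \ VS M
    have e1 : (A \ {x, y}).card ≤ k := card_sdiff_xy (subset_refl _) h1 u1
    have e2 : (B \ {x, y}).card ≤ k' + 1 := (card_le_card sdiff_subset).trans h2
    calc ((N F p q \ VS M) \ {x, y}).card ≤ ((A \ {x, y}) ∪ (B \ {x, y})).card := by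
          apply card_le_card
          rw [← union_sdiff_distrib]
          exact sdiff_subset_sdiff h3 (subset_refl _)
      _ ≤ (A \ {x, y}).card + (B \ {x, y}).card := card_union_le _ _
      _ ≤ s + 1 := by omega

/-- the edges with the only point `p` in `VS M` have a cover with `s + 1` new points -/
theorem cover_G (hM : MM F s M) (p : V) : ∃ C : Finset V, C.card ≤ s + 1 ∧
    (∀ z ∈ C, z ∉ VS M) ∧ ∀ w w' : V, w ∉ VS M → w' ∉ VS M → ({p, w, w'} : Finset V) ∈ F →
      w ∈ C ∨ w' ∈ C := by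
  obtain ⟨Q, hQ, hpQ, -⟩ := exists_Q hM p p
  have h2 := card_new hM hQ p
  have h3 := card_filter_le_s hM (att (M ∪ Q) p)
  refine ⟨att (M ∪ Q) p \ VS M, by omega, fun z hz => (mem_sdiff.1 hz).2, ?_⟩
  intro w w' hw hw' he
  by_contra hcon
  push Not at hcon
  obtain ⟨-, hsw⟩ := sw_max hM hQ (cl_att (M ∪ Q) p)
  apply hsw.hyp.meets hsw.sub hsw.mat hsw.card he
  rw [Finset.disjoint_left]
  intro z hz hz'
  have aux : ∀ z : V, z ∉ VS M → z ∉ att (M ∪ Q) p \ VS M →
      z ∉ VS (sw M Q (att (M ∪ Q) p)) := by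
    intro z h4 h5 h6
    rcases mem_VS_sw (cl_att _ p) h6 with h7 | h7
    · exact h4 h7.1
    · exact h5 (mem_sdiff.2 ⟨h7.2, h4⟩)
  simp only [mem_insert, mem_singleton] at hz
  rcases hz with rfl | rfl | rfl
  · exact sw_avoid hpQ (cl_att _ _) (self_att _ _) hz'
  · exact aux _ hw hcon.1 hz'
  · exact aux _ hw' hcon.2 hz'

/-- the same for `p` in `E`, edges avoiding `x` and `y`: `s` new points -/
theorem cover_G_E (hM : MM F s M) {x y : V} (hx : x ∉ VS M) (hy : y ∉ VS M) {p : V}
    (hp : p ∈ N F x y) : ∃ C : Finset V, C.card ≤ s ∧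
    (∀ z ∈ C, z ∉ VS M ∧ z ≠ x ∧ z ≠ y) ∧ ∀ w w' : V, w ∉ VS M → w' ∉ VS M → w ≠ x → w ≠ y →
      w' ≠ x → w' ≠ y → ({p, w, w'} : Finset V) ∈ F → w ∈ C ∨ w' ∈ C := by
  obtain ⟨Q, hQ, hpQ, -⟩ := exists_Q hM p p
  have h2 := card_new hM hQ p
  have h3 := card_filter_le_s hM (att (M ∪ Q) p)
  have u1 := xy_new hx hy (uses_xy hM hx hy hQ hp hpQ (cl_att _ p) (self_att _ p))
  refine ⟨(att (M ∪ Q) p \ VS M) \ {x, y},
    card_sdiff_xy (subset_refl _) (by omega) u1, ?_, ?_⟩
  · intro z hz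
    simp only [mem_sdiff, mem_insert, mem_singleton, not_or] at hz
    exact ⟨hz.1.2, hz.2.1, hz.2.2⟩
  intro w w' hw hw' hwx hwy hwx' hwy' he
  by_contra hcon
  push Not at hcon
  obtain ⟨-, hsw⟩ := sw_max hM hQ (cl_att (M ∪ Q) p)
  apply hsw.hyp.meets hsw.sub hsw.mat hsw.card he
  rw [Finset.disjoint_left]
  intro z hz hz'
  have aux : ∀ z : V, z ∉ VS M → z ≠ x → z ≠ y →
      z ∉ (att (M ∪ Q) p \ VS M) \ {x, y} → z ∉ VS (sw M Q (att (M ∪ Q) p)) := by
    intro z h4 h4x h4y h5 h6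
    rcases mem_VS_sw (cl_att _ p) h6 with h7 | h7
    · exact h4 h7.1
    · exact h5 (by
        simp only [mem_sdiff, mem_insert, mem_singleton, not_or]
        exact ⟨⟨h7.2, h4⟩, h4x, h4y⟩)
  simp only [mem_insert, mem_singleton] at hz
  rcases hz with rfl | rfl | rfl
  · exact sw_avoid hpQ (cl_att _ _) (self_att _ _) hz'
  · exact aux _ hw hwx hwy hcon.1 hz'
  · exact aux _ hw' hwx' hwy' hcon.2 hz'

/-- **number of the edges with the only point `p` in `VS M`** -/
theorem card_G (hM : MM F s M) (p : V) :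
    (F.filter (fun g => p ∈ g ∧ ∀ z ∈ g, z = p ∨ z ∉ VS M)).card ≤ (s + 1) * (s + 1) := by
  obtain ⟨C, hC, hC', hcov⟩ := cover_G hM p
  have hsub : F.filter (fun g => p ∈ g ∧ ∀ z ∈ g, z = p ∨ z ∉ VS M) ⊆
      C.biUnion (fun w => (N F p w \ VS M).image (fun z => ({p, w, z} : Finset V))) := by
    intro g hg
    rw [mem_filter] at hg
    obtain ⟨hgF, hpg, hz⟩ := hg
    have h2 : (g.erase p).card = 2 := by
      rw [card_erase_of_mem hpg, hM.hyp.three g hgF]
    obtain ⟨a, b, hab, hg2⟩ := card_eq_two.1 h2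
    have hg3 : g = {p, a, b} := by rw [← insert_erase hpg, hg2]
    have ha : a ∈ g.erase p := by rw [hg2]; simp
    have hb : b ∈ g.erase p := by rw [hg2]; simp
    rw [mem_erase] at ha hb
    have ha' := (hz a ha.2).resolve_left ha.1
    have hb' := (hz b hb.2).resolve_left hb.1
    rw [mem_biUnion]
    rcases hcov a b ha' hb' (hg3 ▸ hgF) with h | h
    · exact ⟨a, h, mem_image.2 ⟨b, mem_sdiff.2 ⟨mem_N.2 (hg3 ▸ hgF), hb'⟩, hg3.symm⟩⟩
    · have hg4 : g = {p, b, a} := by rw [hg3, pair_comm a b]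
      exact ⟨b, h, mem_image.2 ⟨a, mem_sdiff.2 ⟨mem_N.2 (hg4 ▸ hgF), ha'⟩, hg4.symm⟩⟩
  calc _ ≤ _ := card_le_card hsub
    _ ≤ ∑ w ∈ C, ((N F p w \ VS M).image (fun z => ({p, w, z} : Finset V))).card :=
        card_biUnion_le
    _ ≤ ∑ _w ∈ C, (s + 1) := by
        apply sum_le_sum
        intro w hw
        exact card_image_le.trans (cap_one hM (Or.inl (hC' w hw)))
    _ = C.card * (s + 1) := by rw [sum_const, smul_eq_mul]
    _ ≤ (s + 1) * (s + 1) := Nat.mul_le_mul_right _ hC

/-- **the same for `p` in `E`**, edges avoiding `x`, `y` -/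
theorem card_G_E (hM : MM F s M) {x y : V} (hx : x ∉ VS M) (hy : y ∉ VS M) {p : V}
    (hp : p ∈ N F x y) :
    (F.filter (fun g => p ∈ g ∧ ∀ z ∈ g, z = p ∨ (z ∉ VS M ∧ z ≠ x ∧ z ≠ y))).card ≤ s * s := by
  obtain ⟨C, hC, hC', hcov⟩ := cover_G_E hM hx hy hp
  have hsub : F.filter (fun g => p ∈ g ∧ ∀ z ∈ g, z = p ∨ (z ∉ VS M ∧ z ≠ x ∧ z ≠ y)) ⊆
      C.biUnion (fun w => ((N F p w \ VS M) \ {x, y}).image
        (fun z => ({p, w, z} : Finset V))) := by
    intro g hg
    rw [mem_filter] at hg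
    obtain ⟨hgF, hpg, hz⟩ := hg
    have h2 : (g.erase p).card = 2 := by
      rw [card_erase_of_mem hpg, hM.hyp.three g hgF]
    obtain ⟨a, b, hab, hg2⟩ := card_eq_two.1 h2
    have hg3 : g = {p, a, b} := by rw [← insert_erase hpg, hg2]
    have ha : a ∈ g.erase p := by rw [hg2]; simp
    have hb : b ∈ g.erase p := by rw [hg2]; simp
    rw [mem_erase] at ha hb
    obtain ⟨ha', hax, hay⟩ := (hz a ha.2).resolve_left ha.1
    obtain ⟨hb', hbx, hby⟩ := (hz b hb.2).resolve_left hb.1
    rw [mem_biUnion]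
    rcases hcov a b ha' hb' hax hay hbx hby (hg3 ▸ hgF) with h | h
    · exact ⟨a, h, mem_image.2 ⟨b, by
        simp only [mem_sdiff, mem_insert, mem_singleton, not_or]
        exact ⟨⟨mem_N.2 (hg3 ▸ hgF), hb'⟩, hbx, hby⟩, hg3.symm⟩⟩
    · have hg4 : g = {p, b, a} := by rw [hg3, pair_comm a b]
      exact ⟨b, h, mem_image.2 ⟨a, by
        simp only [mem_sdiff, mem_insert, mem_singleton, not_or]
        exact ⟨⟨mem_N.2 (hg4 ▸ hgF), ha'⟩, hax, hay⟩, hg4.symm⟩⟩
  calc _ ≤ _ := card_le_card hsub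
    _ ≤ ∑ w ∈ C, (((N F p w \ VS M) \ {x, y}).image (fun z => ({p, w, z} : Finset V))).card :=
        card_biUnion_le
    _ ≤ ∑ _w ∈ C, s := by
        apply sum_le_sum
        intro w hw
        exact card_image_le.trans (cap_one_E hM hx hy hp (Or.inl (hC' w hw).1))
    _ = C.card * s := by rw [sum_const, smul_eq_mul]
    _ ≤ s * s := Nat.mul_le_mul_right _ hC

end Helper21.Res
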