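import Mathlib

/-!
# Project RES (MP_d365ae_co): final arithmetic

`s` blocks, `j` points in `J`, `p` blocks of type 2, `q` blocks of type 3, `g2`, `g3` flagged ones.
`A` is the bound for a matching of class O, I or III, `A + D` the bound for class II, `A - E` the
bound for a matching between a flagged block and a block of type 0.
-/

namespace Helper21.Res

/-- the terms with flags -/
theorem flag_le {s p q g2 g3 X : ℤ} (hs : 0 ≤ s) (h2 : 0 ≤ g2) (h3 : 0 ≤ g3) (hp : g2 ≤ p)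
    (hq : g3 ≤ q) : g2 * X + g3 * (X + 2 * s + 1) ≤ (p + q) * max 0 X + (2 * s + 1) * q := by
  rcases le_total X 0 with h | h
  · rw [max_eq_left h]
    nlinarith [mul_nonneg h2 (neg_nonneg.2 h), mul_nonneg h3 (neg_nonneg.2 h),
      mul_nonneg (sub_nonneg.2 hq) (by linarith : (0 : ℤ) ≤ 2 * s + 1)]
  · rw [max_eq_right h]
    nlinarith [mul_nonneg (sub_nonneg.2 hp) h, mul_nonneg (sub_nonneg.2 hq) h,
      mul_nonneg (sub_nonneg.2 hq) (by linarith : (0 : ℤ) ≤ 2 * s + 1)]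

theorem max16 {s : ℤ} (hs : 3 ≤ s) : max 0 (2 * s - 16) ≤ 2 * s - 6 :=
  max_le (by linarith) (by linarith)

theorem max10 {s : ℤ} (hs : 3 ≤ s) : max 0 (2 * s - 10) ≤ 2 * s - 6 :=
  max_le (by linarith) (by linarith)

theorem quad_le {c H K u : ℤ} (hc : 0 < c) (h : 9 * H ^ 2 ≤ c * K) :
    6 * u * H - c * u ^ 2 ≤ K := by
  have h1 : 0 ≤ c * (K - (6 * u * H - c * u ^ 2)) := by nlinarith [sq_nonneg (3 * H - c * u)]
  by_contra h2
  push Not at h2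
  nlinarith

/-- the sum of all terms -/
def TT (s j p q g2 g3 A D E : ℤ) : ℤ :=
  3 * s * (s - 1) * A + D * (j * (j - 1) - 2 * p ^ 2 - 6 * p * q - 6 * q ^ 2) -
    6 * E * (s - j + p + 2 * q) * (g2 + g3) + s * (18 * s - 12) - 6 * j * s +
    p * max 0 (2 * s - 16) + q * max 0 (2 * s - 10) + 6 * s ^ 2 * g2 + 6 * (s + 1) ^ 2 * g3

theorem TT_le {s j p q g2 g3 A D E : ℤ} (hs : 3 ≤ s) (hp : 0 ≤ p) (hq : 0 ≤ q) (h2 : 0 ≤ g2)
    (h3 : 0 ≤ g3) (hp2 : g2 ≤ p) (hq3 : g3 ≤ q) (hj : 2 * p + 3 * q ≤ j) (hD : 0 ≤ D) (hE : 0 ≤ E)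
    (hc : 0 < 2 * D + 6 * E)
    (h : 9 * (s ^ 2 - E * (s - j)) ^ 2 ≤ (2 * D + 6 * E) *
      (-(3 * s * (s - 1) * A + D * (j ^ 2 - j) + 18 * s ^ 2 - 12 * s - s * j - j))) :
    TT s j p q g2 g3 A D E ≤ 0 := by
  have hX := flag_le (s := s) (X := s ^ 2 - E * (s - j + p + 2 * q)) (by linarith) h2 h3 hp2 hq3
  have m1 := mul_le_mul_of_nonneg_left (max16 hs) hp
  have m2 := mul_le_mul_of_nonneg_left (max10 hs) hq
  set K := -(3 * s * (s - 1) * A + D * (j ^ 2 - j) + 18 * s ^ 2 - 12 * s - s * j - j) with hK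
  have hK0 : 0 ≤ K := by
    by_contra hcon
    push Not at hcon
    nlinarith [sq_nonneg (s ^ 2 - E * (s - j))]
  have hlin : p * (2 * s - 6) + q * (2 * s - 6) + (12 * s + 6) * q ≤ 5 * s * j - j := by
    nlinarith [mul_nonneg (sub_nonneg.2 hj) (by linarith : (0 : ℤ) ≤ s - 3), mul_nonneg hq
      (by linarith : (0 : ℤ) ≤ s), mul_nonneg hp (by linarith : (0 : ℤ) ≤ s),
      mul_nonneg (sub_nonneg.2 hj) (by linarith : (0 : ℤ) ≤ s)]
  have hDq : 2 * D * (p + q) ^ 2 ≤ D * (2 * p ^ 2 + 6 * p * q + 6 * q ^ 2) := by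
    nlinarith [mul_nonneg hD (mul_nonneg hp hq), mul_nonneg hD (mul_nonneg hq hq)]
  rcases le_total (s ^ 2 - E * (s - j + p + 2 * q)) 0 with hX0 | hX0
  · rw [max_eq_left hX0] at hX
    have : 0 ≤ D * (2 * p ^ 2 + 6 * p * q + 6 * q ^ 2) := by positivity
    unfold TT
    nlinarith
  · rw [max_eq_right hX0] at hX
    have hq1 := quad_le (u := p + q) hc h
    have hEq : 0 ≤ E * ((p + q) * q) := by positivity
    unfold TT
    nlinarith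

theorem reg1 {s j p q g2 g3 : ℤ} (hs : 3 ≤ s) (hj2 : 2 ≤ j) (hp : 0 ≤ p) (hq : 0 ≤ q)
    (h2 : 0 ≤ g2) (h3 : 0 ≤ g3) (hp2 : g2 ≤ p) (hq3 : g3 ≤ q) (hj : 2 * p + 3 * q ≤ j)
    (h1 : 3 * j ≤ s + 4) : TT s j p q g2 g3 (-3 * j) (s - 6 + 2 * j) (s + 6 - 2 * j) ≤ 0 := by
  rcases hj2.eq_or_lt with rfl | hj3
  · have hq0 : q = 0 := by omega
    subst hq0
    have hg3 : g3 = 0 := by omega
    subst hg3
    have hp1 : p = 0 ∨ p = 1 := by omega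
    have m1 := mul_le_mul_of_nonneg_left (max16 hs) hp
    rcases hp1 with rfl | rfl
    · have hg2 : g2 = 0 := by omega
      subst hg2
      unfold TT
      nlinarith
    · unfold TT
      nlinarith [mul_nonneg h2 (by linarith : (0 : ℤ) ≤ s - 2)]
  · obtain ⟨i, rfl⟩ : ∃ i, j = i + 3 := ⟨j - 3, by ring⟩
    obtain ⟨w, rfl⟩ : ∃ w, s = 3 * i + 5 + w := ⟨s - 3 * i - 5, by ring⟩
    have hi : 0 ≤ i := by linarith
    have hw : 0 ≤ w := by linarith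
    apply TT_le hs hp hq h2 h3 hp2 hq3 hj (by linarith) (by linarith) (by linarith)
    have : 0 ≤ 72 * (i * w ^ 3) + 487 * (i ^ 2 * w ^ 2) + 1078 * (i ^ 3 * w) + 775 * i ^ 4 +
        72 * w ^ 3 + 1390 * (i * w ^ 2) + 5242 * (i ^ 2 * w) + 5524 * i ^ 3 + 855 * w ^ 2 +
        7530 * (i * w) + 12914 * i ^ 2 + 3174 * w + 11948 * i + 3495 := by positivity
    linarith [this]

theorem reg2 {s j p q g2 g3 : ℤ} (hs : 5 ≤ s) (hp : 0 ≤ p) (hq : 0 ≤ q)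
    (h2 : 0 ≤ g2) (h3 : 0 ≤ g3) (hp2 : g2 ≤ p) (hq3 : g3 ≤ q) (hj : 2 * p + 3 * q ≤ j)
    (h1 : s + 4 ≤ 3 * j) (hjs : j ≤ s) :
    TT s j p q g2 g3 (-(s + 4)) (2 * s - 2 - j) (j + 2) ≤ 0 := by
  apply TT_le (by linarith) hp hq h2 h3 hp2 hq3 hj (by linarith) (by linarith) (by linarith)
  obtain ⟨t, rfl⟩ : ∃ t, j = s - t := ⟨s - j, by ring⟩
  have ht : 0 ≤ t := by linarith
  obtain ⟨w, hw⟩ : ∃ w, w = 2 * s - 3 * t - 4 := ⟨_, rfl⟩
  have hw0 : 0 ≤ w := by linarith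
  have key : 16 * ((2 * (2 * s - 2 - (s - t)) + 6 * (s - t + 2)) *
      (-(3 * s * (s - 1) * -(s + 4) + (2 * s - 2 - (s - t)) * ((s - t) ^ 2 - (s - t)) +
        18 * s ^ 2 - 12 * s - s * (s - t) - (s - t))) -
      9 * (s ^ 2 - (s - t + 2) * (s - (s - t))) ^ 2) =
      775 * t ^ 4 + 1224 * (w * t ^ 3) + 610 * (w ^ 2 * t ^ 2) + 120 * (w ^ 3 * t) + 7 * w ^ 4 +
      4848 * t ^ 3 + 4160 * (w * t ^ 2) + 1104 * (w ^ 2 * t) + 64 * w ^ 3 + 3968 * t ^ 2 +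
      1696 * (w * t) - 96 * w ^ 2 - 3264 * t - 2112 * w - 4608 := by
    rw [hw]
    ring
  have hpos : 0 ≤ 775 * t ^ 4 + 1224 * (w * t ^ 3) + 610 * (w ^ 2 * t ^ 2) + 120 * (w ^ 3 * t) +
      7 * w ^ 4 + 4848 * t ^ 3 + 4160 * (w * t ^ 2) + 1104 * (w ^ 2 * t) + 64 * w ^ 3 +
      3968 * t ^ 2 + 1696 * (w * t) - 96 * w ^ 2 - 3264 * t - 2112 * w - 4608 := by
    rcases ht.eq_or_lt with h0 | h0
    · obtain ⟨v, rfl⟩ : ∃ v, w = v + 6 := ⟨w - 6, by ring⟩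
      have hv : 0 ≤ v := by linarith
      subst h0
      have : 0 ≤ 7 * v ^ 4 + 232 * v ^ 3 + 2568 * v ^ 2 + 8640 * v + 2160 := by positivity
      linarith [this]
    · obtain ⟨v, rfl⟩ : ∃ v, t = v + 1 := ⟨t - 1, by ring⟩
      have hv : 0 ≤ v := by linarith
      ring_nf
      positivity
  linarith

end Helper21.Res
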