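import Mathlib
import Pool.Agent.Helper21.Res.Reg

/-!
# Project RES (MP_d365ae_co): final arithmetic, regimes 3 and 4
-/

namespace Helper21.Res

theorem reg3 {s j p q g2 g3 : ℤ} (hs : 9 ≤ s) (hp : 0 ≤ p) (hq : 0 ≤ q)
    (h2 : 0 ≤ g2) (h3 : 0 ≤ g3) (hp2 : g2 ≤ p) (hq3 : g3 ≤ q) (hj : 2 * p + 3 * q ≤ j)
    (hsj : s ≤ j) (h1 : 2 * j ≤ 3 * s + 2) :
    TT s j p q g2 g3 (2 * s - 4 - 3 * j) (2 * j - s - 2) (3 * s + 2 - 2 * j) ≤ 0 := by
  apply TT_le (by linarith) hp hq h2 h3 hp2 hq3 hj (by linarith) (by linarith) (by linarith)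
  obtain ⟨t, rfl⟩ : ∃ t, j = s + t := ⟨j - s, by ring⟩
  have ht : 0 ≤ t := by linarith
  obtain ⟨w, rfl⟩ : ∃ w, s = w + 2 * t - 2 := ⟨s - 2 * t + 2, by ring⟩
  have hw0 : 0 ≤ w := by linarith
  have hpos : 0 ≤ 48 * t ^ 4 + 144 * (w * t ^ 3) + 151 * (w ^ 2 * t ^ 2) + 62 * (w ^ 3 * t) +
      7 * w ^ 4 - 384 * t ^ 3 - 784 * (w * t ^ 2) - 480 * (w ^ 2 * t) - 80 * w ^ 3 + 760 * t ^ 2 +
      976 * (w * t) + 264 * w ^ 2 - 552 * t - 328 * w + 128 := by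
    rcases lt_or_ge t 6 with h6 | h6
    · obtain ⟨v, rfl⟩ : ∃ v, w = v + 11 - 2 * t := ⟨w - 11 + 2 * t, by ring⟩
      have hv : 0 ≤ v := by linarith
      interval_cases t
      · have : 0 ≤ 7 * v ^ 4 + 228 * v ^ 3 + 2706 * v ^ 2 + 13708 * v + 24471 := by positivity
        linarith [this]
      · have : 0 ≤ 7 * v ^ 4 + 234 * v ^ 3 + 2851 * v ^ 2 + 14876 * v + 27612 := by positivity
        linarith [this]
      · have : 0 ≤ 7 * v ^ 4 + 240 * v ^ 3 + 2890 * v ^ 2 + 14424 * v + 24631 := by positivity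
        linarith [this]
      · have : 0 ≤ 7 * v ^ 4 + 246 * v ^ 3 + 2823 * v ^ 2 + 12712 * v + 18192 := by positivity
        linarith [this]
      · have : 0 ≤ 7 * v ^ 4 + 252 * v ^ 3 + 2650 * v ^ 2 + 10100 * v + 10479 := by positivity
        linarith [this]
      · have : 0 ≤ 7 * v ^ 4 + 258 * v ^ 3 + 2371 * v ^ 2 + 6948 * v + 3196 := by positivity
        linarith [this]
    · obtain ⟨u, rfl⟩ : ∃ u, t = u + 6 := ⟨t - 6, by ring⟩
      have hu : 0 ≤ u := by linarith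
      have : 0 ≤ 48 * u ^ 4 + 144 * (w * u ^ 3) + 151 * (w ^ 2 * u ^ 2) + 62 * (w ^ 3 * u) +
          7 * w ^ 4 + 768 * u ^ 3 + 1808 * (w * u ^ 2) + 1332 * (w ^ 2 * u) + 292 * w ^ 3 +
          4216 * u ^ 2 + 7120 * (w * u) + 2820 * w ^ 2 + 8568 * u + 8408 * w + 3440 := by
        positivity
      linarith [this]
  linarith [hpos]

/-- regime 4 in the variables `a` (blocks of type 0), `x` (type 1), `p` (type 2), `q` (type 3) -/
theorem reg4' {a x p q : ℤ} (ha : 0 ≤ a) (hx : 0 ≤ x) (hp : 0 ≤ p) (hq : 0 ≤ q)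
    (h1 : 3 * a + x + 2 ≤ p + 3 * q) (hs : 9 ≤ a + x + p + q) :
    6 * a ^ 2 - x ^ 2 - 2 * p ^ 2 - 9 * q ^ 2 + 3 * a * x - 9 * a * q - x * p - 6 * x * q -
      9 * p * q + x + 4 * p + 17 * q ≤ 0 := by
  have he : 0 ≤ p + 3 * q - (3 * a + x + 2) := by linarith
  have e1 := mul_nonneg ha he
  have e2 := mul_nonneg hp he
  have e3 := mul_nonneg hx he
  have key : -4 * p ^ 2 - 21 * (p * q) - 4 * (x * p) - 4 * x ^ 2 - 15 * (x * q) - 27 * q ^ 2 -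
      9 * (a * q) - 12 * a + 8 * p + x + 51 * q ≤ 0 := by
    have n1 := mul_nonneg hp hq
    have n2 := mul_nonneg hx hp
    have n3 := mul_nonneg hx hq
    have n4 := mul_nonneg ha hq
    rcases hq.eq_or_lt with h0 | h0
    · subst h0
      have hp3 : 3 ≤ p := by linarith
      nlinarith [mul_nonneg hp (by linarith : (0 : ℤ) ≤ p - 3), sq_nonneg x,
        mul_nonneg hx (by linarith : (0 : ℤ) ≤ p - 3)]
    · rcases (show (1 : ℤ) ≤ q from h0).eq_or_lt with h00 | h00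
      · subst h00
        nlinarith [sq_nonneg p, sq_nonneg x]
      · have hq2 : 2 ≤ q := h00
        nlinarith [mul_nonneg hq (by linarith : (0 : ℤ) ≤ q - 2), sq_nonneg (p - 1),
          mul_nonneg hp (by linarith : (0 : ℤ) ≤ q - 2), mul_nonneg hx (by linarith : (0 : ℤ) ≤ q - 2),
          sq_nonneg x]
  nlinarith [e1, e2, e3, key]

theorem reg4 {s j p q g2 g3 : ℤ} (hs : 9 ≤ s) (hp : 0 ≤ p) (hq : 0 ≤ q) (hp2 : g2 ≤ p) (hq3 : g3 ≤ q) (hj : 2 * p + 3 * q ≤ j)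
    (ha : 0 ≤ s - j + p + 2 * q) (h1 : 3 * s + 2 ≤ 2 * j) :
    TT s j p q g2 g3 (2 * s - 4 - 3 * j) (2 * s) 0 ≤ 0 := by
  obtain ⟨x, rfl⟩ : ∃ x, j = x + 2 * p + 3 * q := ⟨j - 2 * p - 3 * q, by ring⟩
  obtain ⟨a, rfl⟩ : ∃ a, s = a + x + p + q := ⟨s - x - p - q, by ring⟩
  have ha' : 0 ≤ a := by linarith
  have hx : 0 ≤ x := by linarith
  have k := reg4' ha' hx hp hq (by linarith) hs
  have hs3 : 3 ≤ a + x + p + q := by linarith
  have m1 := mul_le_mul_of_nonneg_left (max16 hs3) hp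
  have m2 := mul_le_mul_of_nonneg_left (max10 hs3) hq
  have m3 := mul_le_mul_of_nonneg_left hp2 (sq_nonneg (a + x + p + q))
  have m4 := mul_le_mul_of_nonneg_left hq3 (sq_nonneg (a + x + p + q + 1))
  have m5 := mul_nonneg (by linarith : (0 : ℤ) ≤ a + x + p + q) (neg_nonneg.2 k)
  unfold TT
  nlinarith [m1, m2, m3, m4, m5]

end Helper21.Res
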