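import Mathlib
import Pool.Agent.Helper21.Res.Reg3
import Pool.Agent.Helper65.Res.A2

/-!
# Project RES (MP_d365ae_co): final arithmetic

`disp_le` : the display of `A2.lean` is at most `0` for all `s ≥ 3`, `j ≥ 2`.
-/

namespace Helper21.Res

open RouteA

/-- the display as a function of natural numbers -/
def dsp (s a1 a2 a3 g2 g3 : ℕ) : ℤ :=
  disp s ((a1 + 2 * a2 + 3 * a3 : ℕ) : ℤ) ((s - a1 - a2 - a3 : ℕ) : ℤ) a1 a2 a3 g2 g3

/-- finite check -/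
def chk (s : ℕ) : Bool :=
  (List.range (s + 1)).all fun a1 => (List.range (s + 1 - a1)).all fun a2 =>
    (List.range (s + 1 - a1 - a2)).all fun a3 => (List.range (a2 + 1)).all fun g2 =>
      (List.range (a3 + 1)).all fun g3 =>
        (a1 + 2 * a2 + 3 * a3 < 2 : Bool) || (dsp s a1 a2 a3 g2 g3 ≤ 0 : Bool)

theorem chk_ok : (List.range 9).all (fun s => (s < 3 : Bool) || chk s) = true := by
  decide +kernel

theorem small {s j a0 a1 a2 a3 g2 g3 : ℤ} (hs : 3 ≤ s) (hs8 : s ≤ 8) (hj : 2 ≤ j) (h0 : 0 ≤ a0)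
    (h1 : 0 ≤ a1) (hg2 : 0 ≤ g2) (hg2' : g2 ≤ a2) (hg3 : 0 ≤ g3) (hg3' : g3 ≤ a3)
    (hsum : a0 + a1 + a2 + a3 = s) (hjs : a1 + 2 * a2 + 3 * a3 = j) :
    disp s j a0 a1 a2 a3 g2 g3 ≤ 0 := by
  obtain ⟨s, rfl⟩ := Int.eq_ofNat_of_zero_le (by linarith : (0 : ℤ) ≤ s)
  obtain ⟨a0, rfl⟩ := Int.eq_ofNat_of_zero_le h0
  obtain ⟨a1, rfl⟩ := Int.eq_ofNat_of_zero_le h1
  obtain ⟨a2, rfl⟩ := Int.eq_ofNat_of_zero_le (by linarith : (0 : ℤ) ≤ a2)
  obtain ⟨a3, rfl⟩ := Int.eq_ofNat_of_zero_le (by linarith : (0 : ℤ) ≤ a3)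
  obtain ⟨g2, rfl⟩ := Int.eq_ofNat_of_zero_le hg2
  obtain ⟨g3, rfl⟩ := Int.eq_ofNat_of_zero_le hg3
  have e1 : a0 + a1 + a2 + a3 = s := by exact_mod_cast hsum
  have e2 : ((a1 + 2 * a2 + 3 * a3 : ℕ) : ℤ) = j := by push_cast; exact hjs
  have hc := List.all_eq_true.1 chk_ok s (by simp; omega)
  simp only [Bool.or_eq_true, decide_eq_true_eq] at hc
  have hc1 := hc.resolve_left (by omega)
  unfold chk at hc1
  have c1 := List.all_eq_true.1 hc1 a1 (by simp; omega)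
  have c2 := List.all_eq_true.1 c1 a2 (by simp; omega)
  have c3 := List.all_eq_true.1 c2 a3 (by simp; omega)
  have c4 := List.all_eq_true.1 c3 g2 (by simp; omega)
  have c5 := List.all_eq_true.1 c4 g3 (by simp; omega)
  simp only [Bool.or_eq_true, decide_eq_true_eq] at c5
  have c6 := c5.resolve_left (by omega)
  unfold dsp at c6
  rw [e2, show s - a1 - a2 - a3 = a0 by omega] at c6
  exact c6

theorem disp_le {s j a0 a1 a2 a3 g2 g3 : ℤ} (hs : 3 ≤ s) (hj : 2 ≤ j) (h0 : 0 ≤ a0)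
    (h1 : 0 ≤ a1) (hg2 : 0 ≤ g2) (hg2' : g2 ≤ a2) (hg3 : 0 ≤ g3) (hg3' : g3 ≤ a3)
    (hsum : a0 + a1 + a2 + a3 = s) (hjs : a1 + 2 * a2 + 3 * a3 = j) :
    disp s j a0 a1 a2 a3 g2 g3 ≤ 0 := by
  rcases le_total s 8 with h8 | h8
  · exact small hs h8 hj h0 h1 hg2 hg2' hg3 hg3' hsum hjs
  rcases h8.eq_or_lt with h9 | h9
  · exact small hs h9.symm.le hj h0 h1 hg2 hg2' hg3 hg3' hsum hjs
  have hs9 : 9 ≤ s := h9
  have hp : 0 ≤ a2 := by linarith
  have hq : 0 ≤ a3 := by linarith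
  have key : ∀ A D E : ℤ, cAB s j = A → cC s j - cAB s j = D →
      min (cFL s j) (cAB s j) - cAB s j = -E →
      disp s j a0 a1 a2 a3 g2 g3 = TT s j a2 a3 g2 g3 A D E := by
    intro A D E e1 e2 e3
    unfold disp TT
    rw [e3, e2, e1]
    have k1 : a1 = j - 2 * a2 - 3 * a3 := by linarith
    have k0 : a0 = s - j + a2 + 2 * a3 := by linarith
    rw [k1, k0]
    ring
  have hj' : 2 * a2 + 3 * a3 ≤ j := by linarith
  rcases le_total (3 * j) (s + 4) with r1 | r1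
  · rw [key (-3 * j) (s - 6 + 2 * j) (s + 6 - 2 * j) (by unfold cAB; omega)
      (by unfold cC cAB; omega) (by unfold cFL cAB; omega)]
    exact reg1 hs hj hp hq hg2 hg3 hg2' hg3' hj' r1
  rcases le_total j s with r2 | r2
  · rw [key (-(s + 4)) (2 * s - 2 - j) (j + 2) (by unfold cAB; omega)
      (by unfold cC cAB; omega) (by unfold cFL cAB; omega)]
    exact reg2 (by linarith) hp hq hg2 hg3 hg2' hg3' hj' r1 r2
  rcases le_total (2 * j) (3 * s + 2) with r3 | r3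
  · rw [key (2 * s - 4 - 3 * j) (2 * j - s - 2) (3 * s + 2 - 2 * j) (by unfold cAB; omega)
      (by unfold cC cAB; omega) (by unfold cFL cAB; omega)]
    exact reg3 hs9 hp hq hg2 hg3 hg2' hg3' hj' r2 r3
  · rw [key (2 * s - 4 - 3 * j) (2 * s) 0 (by unfold cAB; omega)
      (by unfold cC cAB; omega) (by unfold cFL cAB; omega)]
    exact reg4 hs9 hp hq hg2' hg3' hj' (by linarith) r3

end Helper21.Res
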